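import Mathlib
import Pool.Agent.MP_a4cd82_co.h14.Main
import Pool.Agent.MP_a4cd82_co.bp.Main

namespace Pool.Agent.Results.MP_a4cd82_co.BipartiteFour

open Pool.Agent.MP_a4cd82_co

/-- In every two-colouring of a complete graph on at least `(4 + ε) n` vertices, `n` large, one
colour class contains all bipartite graphs on `n` vertices without a `K₃,₃` minor. -/
theorem result (ε : ℝ) (hε : 0 < ε) : ∃ n₀ : ℕ, ∀ n : ℕ, n₀ ≤ n → ∀ N : ℕ, (4 + ε) * n ≤ N →
    ∀ H : SimpleGraph (Fin N), ∃ J : SimpleGraph (Fin N), (J = H ∨ J = Hᶜ) ∧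
      ∀ G : SimpleGraph (Fin n), G.Colorable 2 →
        (¬ ∃ B : Fin 3 ⊕ Fin 3 → Set (Fin n),
          (∀ i, (G.induce (B i)).Connected) ∧
          (∀ i j, i ≠ j → Disjoint (B i) (B j)) ∧
          (∀ i j : Fin 3, ∃ x ∈ B (Sum.inl i), ∃ y ∈ B (Sum.inr j), G.Adj x y)) →
        ∃ f : Fin n → Fin N, Function.Injective f ∧ ∀ u v, G.Adj u v → J.Adj (f u) (f v) := by
  obtain ⟨n₀, h⟩ := BP.main_aux 500000 (H14.exists_str 2) hε
  refine ⟨n₀, fun n hn N hN H => (h n hn N hN H).imp fun J k => ⟨k.1, fun G ⟨C⟩ hG =>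
    k.2 G (fun ⟨X, Y, h1, h2, h3, h4, h5, h6⟩ => hG
      ⟨Sum.elim (fun i => X i) fun i => Y i, ?_, ?_, h6⟩) ⟨C, fun _ _ a => C.valid a⟩⟩⟩
  · rintro (i | i)
    · exact (h1 i).connected
    · exact (h2 i).connected
  · rintro (i | i) (j | j) hij
    · exact Finset.disjoint_coe.2 (h3 i j fun e => hij (by rw [e]))
    · exact Finset.disjoint_coe.2 (h5 i j)
    · exact Finset.disjoint_coe.2 (h5 j i).symm
    · exact Finset.disjoint_coe.2 (h4 i j fun e => hij (by rw [e]))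

end Pool.Agent.Results.MP_a4cd82_co.BipartiteFour
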