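import Mathlib
import Pool.Agent.MP_a4cd82_co.h14.Main

namespace Pool.Agent.Results.MP_a4cd82_co.LargePlanar

open Pool.Agent.MP_a4cd82_co.H14

/-- Every large planar graph has Ramsey number at most `12 n`. -/
theorem result : ∃ n₀ : ℕ, ∀ n : ℕ, n₀ ≤ n → ∀ G : SimpleGraph (Fin n),
    (¬ ∃ B : Fin 5 → Set (Fin n),
        (∀ i, (G.induce (B i)).Connected) ∧
        (∀ i j, i ≠ j → Disjoint (B i) (B j)) ∧
        (∀ i j, i ≠ j → ∃ x ∈ B i, ∃ y ∈ B j, G.Adj x y)) →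
    (¬ ∃ B : Fin 3 ⊕ Fin 3 → Set (Fin n),
        (∀ i, (G.induce (B i)).Connected) ∧
        (∀ i j, i ≠ j → Disjoint (B i) (B j)) ∧
        (∀ i j : Fin 3, ∃ x ∈ B (Sum.inl i), ∃ y ∈ B (Sum.inr j), G.Adj x y)) →
    ∀ H : SimpleGraph (Fin (12 * n)),
      (∃ f : Fin n → Fin (12 * n), Function.Injective f ∧
          ∀ u v, G.Adj u v → H.Adj (f u) (f v)) ∨
      (∃ f : Fin n → Fin (12 * n), Function.Injective f ∧
          ∀ u v, G.Adj u v → Hᶜ.Adj (f u) (f v)) := by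
  obtain ⟨n₀, h⟩ := main_aux 500000 (exists_str 23)
  refine ⟨n₀, fun n hn G h5 hG => h n hn G (fun ⟨X, Y, h1, h2, h3, h4, h5, h6⟩ => hG
    ⟨Sum.elim (fun i => X i) fun i => Y i, ?_, ?_, h6⟩)
    (five_colour fun ⟨X, h1, h2⟩ => h5 ⟨fun i => X i, fun i => (h1 i).connected,
      fun i j k => Finset.disjoint_coe.2 (h2 i j k).1, fun i j k => (h2 i j k).2⟩)⟩
  · rintro (i | i)
    · exact (h1 i).connected
    · exact (h2 i).connected
  · rintro (i | i) (j | j) hij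
    · exact Finset.disjoint_coe.2 (h3 i j fun e => hij (by rw [e]))
    · exact Finset.disjoint_coe.2 (h5 i j)
    · exact Finset.disjoint_coe.2 (h5 j i).symm
    · exact Finset.disjoint_coe.2 (h4 i j fun e => hij (by rw [e]))

end Pool.Agent.Results.MP_a4cd82_co.LargePlanar
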