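import Mathlib
import Pool.Agent.MP_a4cd82_co.Core

namespace Pool.Agent.Results.MP_a4cd82_co.SeriesParallel

open Pool.Agent.MP_a4cd82_co Finset

/-- Graphs without a `K₄` minor have Ramsey number at most `max n (12 n - 30)`. -/
theorem result (n : ℕ) (G : SimpleGraph (Fin n))
    (hG : ¬ ∃ B : Fin 4 → Set (Fin n), (∀ i, (G.induce (B i)).Connected) ∧
      (∀ i j, i ≠ j → Disjoint (B i) (B j)) ∧
      (∀ i j, i ≠ j → ∃ x ∈ B i, ∃ y ∈ B j, G.Adj x y))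
    (N : ℕ) (hnN : n ≤ N) (hN : 12 * n ≤ N + 30) (H : SimpleGraph (Fin N)) :
    (∃ f : Fin n → Fin N, Function.Injective f ∧ ∀ u v, G.Adj u v → H.Adj (f u) (f v)) ∨
    (∃ f : Fin n → Fin N, Function.Injective f ∧ ∀ u v, G.Adj u v → Hᶜ.Adj (f u) (f v)) := by
  have hK : ¬ HasK4 G univ := fun ⟨B, _, h2, h3⟩ => hG ⟨B, fun i => (h2 i).connected, h3⟩
  have key : ∀ H' H'' : SimpleGraph (Fin N), 2 ≤ n → H'' ≤ H' → (∃ x y, H''.Adj x y) →
      (∀ x y, H''.Adj x y → n - 2 ≤ (cn H'' x y).card) →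
      ∃ f : Fin n → Fin N, Function.Injective f ∧ ∀ u v, G.Adj u v → H'.Adj (f u) (f v) := by
    intro H' H'' hn hle h1 h2
    obtain ⟨f, f1, -, f3⟩ := embed hn H'' h1 h2 n le_rfl G univ (by simp) hK
    exact ⟨f, fun x y h => f1 (by simp) (by simp) h,
      fun u v h => hle (f3 u (mem_univ u) v (mem_univ v) h)⟩
  rcases lt_trichotomy n 2 with h | h | h
  · exact Or.inl ⟨Fin.castLE hnN, Fin.castLE_injective _, fun u v huv =>
      absurd (Fin.ext (by omega)) huv.ne⟩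
  · have hne : (⟨0, by omega⟩ : Fin N) ≠ ⟨1, by omega⟩ := by simp
    by_cases ha : H.Adj ⟨0, by omega⟩ ⟨1, by omega⟩
    · exact Or.inl (key H H h.ge le_rfl ⟨_, _, ha⟩ fun _ _ _ => by omega)
    · exact Or.inr (key Hᶜ Hᶜ h.ge le_rfl ⟨_, _, hne, ha⟩ fun _ _ _ => by omega)
  · obtain ⟨k, rfl⟩ : ∃ k, n = k + 3 := ⟨n - 3, by omega⟩
    obtain ⟨g1, g2⟩ := goodman H
    rw [Fintype.card_fin] at g1 g2
    by_cases h1 : 3 * k * (eo H).card < (tr H).card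
    · obtain ⟨H', a1, a2, a3⟩ := core k _ H le_rfl h1
      exact Or.inl (key H H' h.le a1 a2 a3)
    by_cases h2 : 3 * k * (eo Hᶜ).card < (tr Hᶜ).card
    · obtain ⟨H', a1, a2, a3⟩ := core k _ Hᶜ le_rfl h2
      exact Or.inr (key Hᶜ H' h.le a1 a2 a3)
    exfalso
    have b1 : ((tr H).card : ℤ) ≤ 3 * k * (eo H).card := by exact_mod_cast not_lt.1 h1
    have b2 : ((tr Hᶜ).card : ℤ) ≤ 3 * k * (eo Hᶜ).card := by exact_mod_cast not_lt.1 h2
    have b3 : 12 * (k : ℤ) + 6 ≤ N := by omega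
    have b4 : (0 : ℤ) < N * (N - 1) := mul_pos (by omega) (by omega)
    nlinarith

end Pool.Agent.Results.MP_a4cd82_co.SeriesParallel
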